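import Pool.Agent.Helper12_AEU.StmtF

/-! AEU (MP_5b0138_an) Part III, block F: the angles in the spanning case -/

set_option autoImplicit false

namespace Pool.Agent.AEU.H35F

open MeasureTheory Complex Filter Topology Pool.Agent.H62T Pool.Agent.H16F Pool.Agent.H38KL
  Pool.Agent.H60K Pool.Agent.AEU.H12F

lemma arg_lt {z : ℂ} {η : ℝ} (h0 : 0 < z.re) (h1 : 0 < η) (h2 : η < Real.pi / 2)
    (h : z.im < z.re * Real.tan η) : Complex.arg z < η := by
  by_contra hcon
  push Not at hcon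
  have ha : |Complex.arg z| < Real.pi / 2 := Complex.abs_arg_lt_pi_div_two_iff.2 (Or.inl h0)
  have hb := abs_lt.1 ha
  have ht := Complex.tan_arg z
  have h3 : Real.tan η ≤ Real.tan (Complex.arg z) := by
    rcases hcon.eq_or_lt with h4 | h4
    · rw [h4]
    · exact (Real.tan_lt_tan_of_lt_of_lt_pi_div_two (by linarith) hb.2 h4).le
  rw [ht, le_div_iff₀ h0] at h3
  linarith

lemma lt_arg {z : ℂ} {η : ℝ} (h0 : 0 < z.re) (h1 : 0 < η) (h2 : η < Real.pi / 2)
    (h : -(z.re * Real.tan η) < z.im) : -η < Complex.arg z := by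
  by_contra hcon
  push Not at hcon
  have ha : |Complex.arg z| < Real.pi / 2 := Complex.abs_arg_lt_pi_div_two_iff.2 (Or.inl h0)
  have hb := abs_lt.1 ha
  have ht := Complex.tan_arg z
  have h3 : Real.tan (Complex.arg z) ≤ Real.tan (-η) := by
    rcases hcon.eq_or_lt with h4 | h4
    · rw [h4]
    · exact (Real.tan_lt_tan_of_lt_of_lt_pi_div_two hb.1 (by linarith) h4).le
  rw [ht, div_le_iff₀ h0, Real.tan_neg] at h3
  linarith only [h, h3]

lemma ex_bound {d η θ ρ δ : ℝ} (hη0 : 0 < η) (hη : η < Real.pi / 2)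
    (hρ : 0 < ρ) (hδ : 0 < δ) : 2 * d / Real.cos η * Real.cos (η - θ) - (4 * δ + 2 * ρ)
      ≤ Ex d δ δ θ (d * Real.tan η - ρ) := by
  have hc : 0 < Real.cos η := Real.cos_pos_of_mem_Ioo ⟨by linarith, hη⟩
  have e : 2 * d / Real.cos η * Real.cos (η - θ)
      = 2 * d * Real.cos θ + 2 * (d * Real.tan η) * Real.sin θ := by
    rw [Real.cos_sub, Real.tan_eq_sin_div_cos]
    field_simp
  rw [e]
  unfold H12F.Ex
  have h1 := Real.cos_le_one θ
  have h2 := Real.sin_le_one θ
  have h3 : δ * Real.cos θ ≤ δ := by nlinarith only [hδ, h1]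
  have h4 : (ρ + δ) * Real.sin θ ≤ ρ + δ := by nlinarith only [hρ, h2, hδ]
  linarith only [h3, h4]

lemma hb_le1 {η1 η2 d : ℝ} : hb η1 η2 d ≤ d / Real.cos η1 * Real.sin (η1 + η2) := min_le_left _ _
lemma hb_le2 {η1 η2 d : ℝ} : hb η1 η2 d ≤ d / Real.cos η2 * Real.sin (η1 + η2) := min_le_right _ _

/-- choice of the angle -/
lemma exists_angle {d ε η α : ℝ} (hd : 0 < d) (hε : 0 < ε) (hη0 : 0 < η) (hη : η < Real.pi / 2)
    (hm : |2 * α - Real.pi| < 2 * η) : ∃ θ : ℝ, 0 < θ ∧ θ < Real.pi / 2 ∧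
      2 * θ < 2 * η - |2 * α - Real.pi| ∧
      2 * (d / Real.cos η * Real.sin α) - ε / 2 ≤ 2 * d / Real.cos η * Real.cos (η - θ) := by
  have hc : 0 < Real.cos η := Real.cos_pos_of_mem_Ioo ⟨by linarith, hη⟩
  obtain ⟨m, hmd⟩ : ∃ m, m = |2 * α - Real.pi| := ⟨_, rfl⟩
  rw [← hmd] at hm ⊢
  have hm0 : 0 ≤ m := by rw [hmd]; exact abs_nonneg _
  obtain ⟨s, hs⟩ : ∃ s, s = min (ε * Real.cos η / (4 * d)) ((η - m / 2) / 2) := ⟨_, rfl⟩
  have hs0 : 0 < s := by
    rw [hs]; exact lt_min (by positivity) (by linarith)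
  have hs1 : s ≤ ε * Real.cos η / (4 * d) := by rw [hs]; exact min_le_left _ _
  have hs2 : s ≤ (η - m / 2) / 2 := by rw [hs]; exact min_le_right _ _
  refine ⟨η - m / 2 - s, by linarith, by linarith, by linarith, ?_⟩
  have e1 : η - (η - m / 2 - s) = m / 2 + s := by ring
  rw [e1]
  have e2 : Real.cos (m / 2) = Real.sin α := by
    have e3 : m / 2 = |α - Real.pi / 2| := by
      rw [hmd, show 2 * α - Real.pi = 2 * (α - Real.pi / 2) by ring, abs_mul,
        abs_of_pos (show (0:ℝ) < 2 by norm_num)]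
      ring
    rw [e3, Real.cos_abs, Real.cos_sub_pi_div_two]
  have h1 : Real.cos (m / 2) - s ≤ Real.cos (m / 2 + s) := by
    have h2 := Real.abs_cos_sub_cos_le (x := m / 2) (y := m / 2 + s)
    rw [show m / 2 - (m / 2 + s) = -s by ring, abs_neg, abs_of_pos hs0] at h2
    have := (abs_le.1 h2).2
    linarith
  rw [e2] at h1
  have hk : 0 < 2 * d / Real.cos η := by positivity
  have h3 := mul_le_mul_of_nonneg_left h1 hk.le
  have h4 : 2 * d / Real.cos η * s ≤ ε / 2 := by
    calc 2 * d / Real.cos η * s ≤ 2 * d / Real.cos η * (ε * Real.cos η / (4 * d)) :=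
          mul_le_mul_of_nonneg_left hs1 hk.le
      _ = ε / 2 := by field_simp; ring
  have h5 : 2 * (d / Real.cos η * Real.sin α) = 2 * d / Real.cos η * Real.sin α := by ring
  rw [h5]
  linarith only [h3, h4]

/-- PRS -/
theorem prs : PrsStatement := by
  intro η1 η2 d ε h1 h1' h2 h2' hd hε hcond
  have hcond1 : |2 * (η1 + η2) - Real.pi| < 2 * η1 := by
    have := le_abs_self (η2 - η1)
    rw [abs_sub_comm] at this
    linarith
  have hcond2 : |2 * (η1 + η2) - Real.pi| < 2 * η2 := by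
    have := le_abs_self (η1 - η2)
    linarith
  obtain ⟨θ1, a1, a2, a3, a4⟩ := exists_angle hd hε h1 h1' hcond1
  obtain ⟨θ2, b1, b2, b3, b4⟩ := exists_angle hd hε h2 h2' hcond2
  have t1 : 0 < Real.tan η1 := Real.tan_pos_of_pos_of_lt_pi_div_two h1 h1'
  have t2 : 0 < Real.tan η2 := Real.tan_pos_of_pos_of_lt_pi_div_two h2 h2'
  have c1 : 0 < Real.cos η1 := Real.cos_pos_of_mem_Ioo ⟨by linarith only [h1, h1'], h1'⟩
  have c2 : 0 < Real.cos η2 := Real.cos_pos_of_mem_Ioo ⟨by linarith only [h1, h1', h2], h2'⟩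
  have hs := Real.sin_le_one (η1 + η2)
  have full : ∀ η : ℝ, 0 < Real.cos η →
      2 * (d / Real.cos η * Real.sin (η1 + η2)) ≤ 2 * d / Real.cos η * Real.cos (η - η) := by
    intro η hc
    rw [sub_self, Real.cos_zero]
    have : 0 < d / Real.cos η := by positivity
    have h := mul_le_mul_of_nonneg_left hs this.le
    have e : 2 * d / Real.cos η * 1 = 2 * (d / Real.cos η * 1) := by ring
    rw [e]
    linarith only [h]
  refine ⟨θ1, θ2, a1, a2, b1, b2, a3, b3, min (ε / 8) (min (d * Real.tan η1 / 2)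
    (d * Real.tan η2 / 2)), by positivity, fun ρ hρ hρ' => ?_⟩
  have hρ1 : ρ < ε / 8 := hρ'.trans_le (min_le_left _ _)
  have hρ2 : ρ < d * Real.tan η1 / 2 := hρ'.trans_le ((min_le_right _ _).trans (min_le_left _ _))
  have hρ3 : ρ < d * Real.tan η2 / 2 := hρ'.trans_le ((min_le_right _ _).trans (min_le_right _ _))
  refine ⟨min (ε / 16) (min (d / 3) (min (ρ / (3 * Real.tan η1)) (min (ρ / (3 * Real.tan η2))
    (min (d * Real.tan η1 / 2) (d * Real.tan η2 / 2))))), by positivity, fun δ hδ hδ' => ?_⟩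
  have k1 : δ < ε / 16 := hδ'.trans_le (min_le_left _ _)
  have k2 := hδ'.trans_le (min_le_right _ _)
  have k3 : δ < d / 3 := k2.trans_le (min_le_left _ _)
  have k4 := k2.trans_le (min_le_right _ _)
  have k5 : δ < ρ / (3 * Real.tan η1) := k4.trans_le (min_le_left _ _)
  have k6 := k4.trans_le (min_le_right _ _)
  have k7 : δ < ρ / (3 * Real.tan η2) := k6.trans_le (min_le_left _ _)
  have k8 := k6.trans_le (min_le_right _ _)
  have k9 : δ < d * Real.tan η1 / 2 := k8.trans_le (min_le_left _ _)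
  have k10 : δ < d * Real.tan η2 / 2 := k8.trans_le (min_le_right _ _)
  rw [lt_div_iff₀ (by positivity)] at k5 k7
  have hb1 := hb_le1 (η1 := η1) (η2 := η2) (d := d)
  have hb2 := hb_le2 (η1 := η1) (η2 := η2) (d := d)
  refine ⟨by linarith only [k3], by linarith only [hρ2, k9], by linarith only [hρ3, k10], ?_, ?_, ?_, ?_, ?_⟩
  · rintro x ⟨hx1, hx2, hx3⟩
    rw [abs_lt] at hx1
    have r1 : d - 3 * δ < x.re := by linarith only [hx1.1]
    have r2 : x.re < d - δ := by linarith only [hx1.2]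
    have r0 : 0 < x.re := by linarith only [k3, hx1]
    have m1 : (d - 3 * δ) * Real.tan η1 ≤ x.re * Real.tan η1 :=
      mul_le_mul_of_nonneg_right r1.le t1.le
    have m2 : (d - 3 * δ) * Real.tan η2 ≤ x.re * Real.tan η2 :=
      mul_le_mul_of_nonneg_right r1.le t2.le
    have e1 : (2 * d - (starRingEnd ℂ) x).re = 2 * d - x.re := by simp
    have e2 : (2 * d - (starRingEnd ℂ) x).im = x.im := by simp
    have r3 : d < 2 * d - x.re := by linarith only [hx1]
    have m3 : d * Real.tan η1 ≤ (2 * d - x.re) * Real.tan η1 :=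
      mul_le_mul_of_nonneg_right r3.le t1.le
    have m4 : d * Real.tan η2 ≤ (2 * d - x.re) * Real.tan η2 :=
      mul_le_mul_of_nonneg_right r3.le t2.le
    refine ⟨r0, lt_arg r0 h2 h2' (by linarith only [k7, hx2, m2]), arg_lt r0 h1 h1' (by linarith only [k5, hx3, m1]), ?_, ?_, ?_⟩
    · rw [e1]; linarith only [k3, hx1]
    · refine lt_arg (by rw [e1]; linarith only [k3, hx1]) h2 h2' ?_
      rw [e1, e2]; linarith only [hρ, hx2, m4]
    · refine arg_lt (by rw [e1]; linarith only [k3, hx1]) h1 h1' ?_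
      rw [e1, e2]; linarith only [hρ, hx3, m3]
  · refine le_trans ?_ (ex_bound h1 h1' hρ hδ)
    linarith only [a4, hρ1, k1, hb1]
  · refine le_trans ?_ (ex_bound h1 h1' hρ hδ)
    have := full η1 c1
    linarith only [hρ1, hδ, k1, hb1, this]
  · refine le_trans ?_ (ex_bound h2 h2' hρ hδ)
    linarith only [b4, hρ1, k1, hb2]
  · refine le_trans ?_ (ex_bound h2 h2' hρ hδ)
    have := full η2 c2
    linarith only [hρ1, hδ, k1, hb2, this]

end Pool.Agent.AEU.H35F
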